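import Pool.Agent.Helper16.DBC.MHS

/-!
# Deligne-Beilinson cohomology and variations of mixed Hodge structure: the data

`Var` is the category of smooth separated schemes of finite type over `ℂ` (Mathlib's schemes). A `Theory` consists
of the mixed Hodge structures of these varieties, their real Deligne-Beilinson cohomology (logarithmic
poles at infinity), and the categories of admissible variations of mixed Hodge structure.
-/

set_option autoImplicit false

open CategoryTheory CategoryTheory.Limits AlgebraicGeometry Opposite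
open scoped TensorProduct

namespace Pool.Agent.Helper16.DBC

/-- The scheme `Spec ℂ`. -/
noncomputable abbrev pt : Scheme.{0} := Spec (CommRingCat.of ℂ)

/-- A smooth separated scheme of finite type over `ℂ`. -/
structure Var : Type 1 where
  /-- the scheme -/
  carrier : Scheme.{0}
  /-- the structure morphism -/
  str : carrier ⟶ pt
  [smooth : Smooth str]
  [separated : IsSeparated str]
  [quasiCompact : QuasiCompact str]

attribute [instance] Var.smooth Var.separated Var.quasiCompact

namespace Var

/-- A morphism over `ℂ`. -/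
@[ext] structure Hom (X Y : Var) where
  /-- the morphism of schemes -/
  left : X.carrier ⟶ Y.carrier
  w : left ≫ Y.str = X.str

instance : Category Var where
  Hom := Hom
  id X := ⟨𝟙 _, by simp⟩
  comp f g := ⟨f.left ≫ g.left, by rw [Category.assoc, g.w, f.w]⟩

theorem comp_left {X Y Z : Var} (f : X ⟶ Y) (g : Y ⟶ Z) : (f ≫ g).left = f.left ≫ g.left := rfl

instance (X : Var) : IsLocallyNoetherian X.carrier :=
  LocallyOfFiniteType.isLocallyNoetherian X.str

/-- An open subvariety. -/
noncomputable def openSub (X : Var) (U : X.carrier.Opens) : Var where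
  carrier := U
  str := U.ι ≫ X.str

/-- The inclusion of an open subvariety. -/
noncomputable def incl (X : Var) (U : X.carrier.Opens) : X.openSub U ⟶ X := ⟨U.ι, rfl⟩

end Var

/-- A `ℂ`-valued point. -/
@[ext] structure Pt (S : Var) where
  /-- the morphism `Spec ℂ ⟶ S` -/
  s : pt ⟶ S.carrier
  w : s ≫ S.str = 𝟙 pt

/-- The image of a point. -/
noncomputable def Pt.map {T S : Var} (h : T ⟶ S) (t : Pt T) : Pt S :=
  ⟨t.s ≫ h.left, by rw [Category.assoc, h.w, t.w]⟩

/-- `f` is a smooth proper morphism with geometrically integral fibres. -/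
structure Family {X S : Var} (f : X ⟶ S) : Prop where
  smooth : Smooth f.left
  proper : IsProper f.left
  fibres : GeometricallyIntegral f.left

/-- The fibre of a smooth proper family at a point. -/
noncomputable def fibre {X S : Var} (f : X ⟶ S) (hf : Family f) (s : Pt S) : Var :=
  haveI := hf.smooth
  haveI := hf.proper
  { carrier := pullback f.left s.s
    str := pullback.snd f.left s.s }

/-- The complement of the open subset `U` has codimension at least `p` in `X`. -/
def CodimGE (X : Var) (U : X.carrier.Opens) (p : ℕ) : Prop :=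
  ∀ z : X.carrier, z ∉ U → (p : WithBot ℕ∞) ≤ ringKrullDim (X.carrier.presheaf.stalk z)

/-- Objects with a finite filtration whose graded pieces satisfy `P`. -/
inductive Built {C : Type 1} [Category.{0} C] [Abelian C] (P : C → Prop) : C → Prop
  | zero (A : C) (h : IsZero A) : Built P A
  | of (A : C) (h : P A) : Built P A
  | ext (S : ShortComplex C) (h : S.ShortExact) (h₁ : Built P S.X₁) (h₃ : Built P S.X₃) : Built P S.X₂

/-- The cohomology groups of smooth complex varieties. -/
structure Groups where
  /-- `Hⁿ(U, ℚ)` with Deligne's mixed Hodge structure -/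
  H : ℕ → Varᵒᵖ ⥤ MHS
  /-- the real Deligne-Beilinson cohomology `Hⁱ_D(U, ℝ(j))` (logarithmic poles at infinity) -/
  HD : ℤ → ℤ → Varᵒᵖ ⥤ ModuleCat.{0} ℝ

namespace Groups

variable (K : Groups)

/-- `Hⁿ(U, ℚ)` -/
def Hn (n : ℕ) (U : Var) : MHS := (K.H n).obj (op U)

/-- restriction along `U ⟶ X` -/
def res (n : ℕ) {U X : Var} (a : U ⟶ X) : K.Hn n X ⟶ K.Hn n U := (K.H n).map a.op

/-- `Hⁱ_D(U, ℝ(j))` -/
def D (i j : ℤ) (U : Var) : Type := (K.HD i j).obj (op U)

noncomputable instance (i j : ℤ) (U : Var) : AddCommGroup (K.D i j U) :=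
  inferInstanceAs (AddCommGroup ((K.HD i j).obj (op U)))

noncomputable instance (i j : ℤ) (U : Var) : Module ℝ (K.D i j U) :=
  inferInstanceAs (Module ℝ ((K.HD i j).obj (op U)))

/-- restriction along `U ⟶ X` -/
def resD (i j : ℤ) {U X : Var} (a : U ⟶ X) : K.D i j X → K.D i j U := (K.HD i j).map a.op

end Groups

/-- The cohomology of smooth complex varieties. -/
structure Cohomology extends Groups where
  /-- the map `Hⁿ(U, ℂ) → Hⁿ⁺¹_D(U, ℝ(j))` -/
  κ : ∀ (n : ℕ) (j : ℤ) (U : Var), (toGroups.Hn n U).C →ₗ[ℝ] toGroups.D (n + 1) j U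

/-- The abelian categories of admissible variations. -/
structure VarCat where
  /-- admissible graded polarisable variations of rational mixed Hodge structure on `S` -/
  VM : Var → Type 1
  [cat : ∀ S, Category.{0} (VM S)]
  [ab : ∀ S, Abelian (VM S)]
  /-- the constant variation `ℚ(m)` -/
  tate : ∀ S, ℤ → VM S
  /-- Tate twist -/
  twist : ∀ {S}, ℤ → VM S → VM S
  /-- internal Hom -/
  ihom : ∀ {S}, VM S → VM S → VM S
  /-- the cohomology `Hᵐ(S(ℂ), A)` of the underlying local system -/
  coh : ∀ S, ℕ → VM S ⥤ ModuleCat.{0} ℚ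

attribute [instance] VarCat.cat VarCat.ab

/-- Pull-backs and direct images of variations. -/
structure Functors extends VarCat where
  /-- pull-back -/
  pull : ∀ {T S : Var} (_ : T ⟶ S), VM S ⥤ VM T
  /-- `(g ∘ h)^* = h^* g^*` -/
  pullComp : ∀ {U T S : Var} (h : U ⟶ T) (g : T ⟶ S), pull (h ≫ g) ≅ pull g ⋙ pull h
  /-- `Rⁿ f_* ℚ` for a smooth proper family `f` -/
  direct : ∀ {X S : Var} (f : X ⟶ S), Family f → ℕ → VM S

/-- The data: mixed Hodge structures, Deligne-Beilinson cohomology, variations and their fibres. -/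
structure Theory extends Cohomology, Functors where
  /-- the fibre of a variation at a point -/
  fib : ∀ {S : Var}, Pt S → VM S ⥤ MHS
  /-- the fibre of `g^* A` at `t` is the fibre of `A` at `g(t)` -/
  pullFib : ∀ {T S : Var} (g : T ⟶ S) (t : Pt T) (s : Pt S), t.map g = s → (pull g ⋙ fib t ≅ fib s)
  /-- the fibre of `Rⁿ f_* ℚ` at `s` is `Hⁿ` of the fibre -/
  directFib : ∀ {X S : Var} (f : X ⟶ S) (hf : Family f) (n : ℕ) (s : Pt S),
    (fib s).obj (direct f hf n) ≅ toGroups.Hn n (fibre f hf s)

namespace Theory

variable (T : Theory)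

/-- `x` has support in codimension `p`: it vanishes on an open subset of `X` whose complement has
codimension at least `p`. -/
def Supported (X : Var) (p : ℕ) {i j : ℤ} (x : T.D i j X) : Prop :=
  ∃ U : X.carrier.Opens, CodimGE X U p ∧ T.resD i j (X.incl U) x = 0

/-- The statement of Q1: for all smooth proper varieties `X` and all `i ≤ 2 j - 1` every class of
`Hⁱ_D(X, ℝ(j))` has support in codimension `i - j`. -/
def Q1 : Prop :=
  ∀ X : Var, IsProper X.str → IsIntegral X.carrier → ∀ i j : ℤ, i ≤ 2 * j - 1 →
    ∀ x : T.D i j X, T.Supported X (i - j).toNat x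

end Theory

end Pool.Agent.Helper16.DBC
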