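import Pool.Agent.Helper16.DBC.Defs

/-!
# Deligne-Beilinson cohomology and variations of mixed Hodge structure: the facts
-/

set_option autoImplicit false

open CategoryTheory CategoryTheory.Limits AlgebraicGeometry Opposite
open scoped TensorProduct

namespace Pool.Agent.Helper16.DBC

namespace Theory

variable (T : Theory)

/-- Deligne: the cohomology of a proper variety is pure. Beilinson: the exact sequence
`F^j Hⁿ(U, ℂ) ⊕ Hⁿ(U, ℝ(j)) → Hⁿ(U, ℂ) → Hⁿ⁺¹_D(U, ℝ(j))`, natural in `U`. -/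
structure Basic : Prop where
  pure : ∀ (X : Var) (n : ℕ), IsProper X.str → (T.Hn n X).Pure n
  natural : ∀ (n : ℕ) (j : ℤ) (U X : Var) (a : U ⟶ X) (x : (T.Hn n X).C),
    T.κ n j U (MHS.cx (T.res n a) x) = T.resD (n + 1) j a (T.κ n j X x)
  exact : ∀ (n : ℕ) (j : ℤ) (U : Var) (x : (T.Hn n U).C), T.κ n j U x = 0 ↔ (T.Hn n U).InSum j x

/-- `Ext¹(A, B) = 0` in the category of admissible variations: if `M ⊆ N` and `N/M = A`, every morphism
`M ⟶ B` extends to `N`. -/
def ExtZero {C : Type 1} [Category.{0} C] [Abelian C] (A B : C) : Prop :=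
  ∀ (M N : C) (k : M ⟶ N) (q : N ⟶ A) (w : k ≫ q = 0), (ShortComplex.mk k q w).ShortExact →
    ∀ φ : M ⟶ B, ∃ ψ : N ⟶ B, k ≫ ψ = φ

/-- Facts on admissible variations over a smooth connected variety `S`.

`hom_zero`, `ext_zero`: the exact sequences for `Hom(A, B)` and `Ext¹(A, B)` in terms of `Ext_MHS(ℚ, Hᵐ(S, Hom(A, B)))`,
`m = 0, 1` (Carlson, Steenbrink-Zucker, Saito). `tate_hom`: `Hom(ℚ(m), B) = B(-m)`. `leray`: for a smooth proper
family `g : Z → S` the dual of `R¹ g_* ℚ` is `R¹ g_* ℚ (1)` up to isomorphism, and by Deligne's theorem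
`H^q(S, R¹ g_* g^* B)` is a direct summand of `H^(q+1)(Z, g^* B)`. -/
structure Variations : Prop where
  hom_zero : ∀ (S : Var), IsIntegral S.carrier → ∀ A B : T.VM S,
    IsZero ((T.coh S 0).obj (T.ihom A B)) → ∀ f : A ⟶ B, f = 0
  ext_zero : ∀ (S : Var), IsIntegral S.carrier → ∀ A B : T.VM S,
    IsZero ((T.coh S 0).obj (T.ihom A B)) → IsZero ((T.coh S 1).obj (T.ihom A B)) → ExtZero A B
  tate_hom : ∀ (S : Var) (m : ℤ) (B : T.VM S) (q : ℕ),
    IsZero ((T.coh S q).obj B) → IsZero ((T.coh S q).obj (T.ihom (T.tate S m) B))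
  leray : ∀ (Z S : Var) (g : Z ⟶ S) (hg : Family g), IsIntegral S.carrier →
    ∀ (m : ℤ) (B : T.VM S) (q : ℕ), IsZero ((T.coh Z (q + 1)).obj ((T.pull g).obj B)) →
      IsZero ((T.coh S q).obj (T.ihom (T.twist m (T.direct g hg 1)) B))

/-- A smooth proper family `f : X → S` and a direct summand `B` of `R^(2p) f_* ℚ`. For the universal family of
smooth hypersurfaces of dimension `2p` and given degree, `B` is the primitive part. -/
structure Lefschetz (p : ℕ) where
  /-- the total space -/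
  X : Var
  /-- the base -/
  S : Var
  /-- the family -/
  f : X ⟶ S
  hf : Family f
  /-- the primitive part -/
  B : T.VM S
  /-- the inclusion -/
  ι : B ⟶ T.direct f hf (2 * p)
  /-- the projection -/
  π : T.direct f hf (2 * p) ⟶ B
  ιπ : ι ≫ π = 𝟙 B

variable {T}

/-- Nori's vanishing: for every smooth morphism `g : Z → S`, `Z` connected, `Hᵐ(Z, g^* B) = 0` for `m ≤ 2p - 1`. -/
def Lefschetz.Nori {p : ℕ} (L : T.Lefschetz p) : Prop :=
  ∀ (Z : Var) (g : Z ⟶ L.S), Smooth g.left → IsIntegral Z.carrier →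
    ∀ m : ℕ, m ≤ 2 * p - 1 → IsZero ((T.coh Z m).obj ((T.pull g).obj L.B))

/-- The graded pieces of `R^(2p+1)` with supports: `ℚ(-p-1)` and `R¹ g_* ℚ (-p)`. -/
def Piece (T : Theory) (p : ℕ) (S : Var) (A : T.VM S) : Prop :=
  Nonempty (A ≅ T.tate S (-(p + 1 : ℤ))) ∨
    ∃ (Z : Var) (g : Z ⟶ S) (hg : Family g), Nonempty (A ≅ T.twist (-(p : ℤ)) (T.direct g hg 1))

/-- The fibre `X_s`. -/
noncomputable abbrev Lefschetz.fibre {p : ℕ} (L : T.Lefschetz p) (s : Pt L.S) : Var :=
  DBC.fibre L.f L.hf s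

/-- `R^(2p) f_* ℚ` -/
abbrev Lefschetz.R {p : ℕ} (L : T.Lefschetz p) : T.VM L.S := T.direct L.f L.hf (2 * p)

/-- The isomorphism of the fibre of `R^(2p) f_* ℚ` at `s` with `H^(2p)(X_s)`. -/
noncomputable def Lefschetz.spec {p : ℕ} (L : T.Lefschetz p) (s : Pt L.S) :
    (T.fib s).obj L.R ≅ T.Hn (2 * p) (L.fibre s) :=
  T.directFib L.f L.hf (2 * p) s

/-- The fibre of `B` at `s`. -/
abbrev Lefschetz.Bs {p : ℕ} (L : T.Lefschetz p) (s : Pt L.S) : MHS := (T.fib s).obj L.B

/-- The inclusion of the fibre of `B` into `H^(2p)(X_s)`. -/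
noncomputable def Lefschetz.toFibre {p : ℕ} (L : T.Lefschetz p) (s : Pt L.S) :
    L.Bs s ⟶ T.Hn (2 * p) (L.fibre s) :=
  (T.fib s).map L.ι ≫ (L.spec s).hom

/-- A good extension of the pair `(X_s, Z)`, `Z` the complement of `U`, to a family over an etale neighbourhood
`(S', s')` of `s`: `R^(2p)` of the complement is an admissible variation `E`, with the localisation
sequence: the kernel of `ρ : R^(2p) f_* ℚ ⟶ E` is an iterated extension of `ℚ(-p)`'s (classes of the components of
`Z` of dimension `p`), and its cokernel is an iterated extension of `ℚ(-p-1)`'s and of `R¹ g_* ℚ (-p)`'s,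
`g` the resolution of a component. -/
structure Lefschetz.Spread {p : ℕ} (L : T.Lefschetz p) (s : Pt L.S) (U : (L.fibre s).carrier.Opens) where
  /-- the etale neighbourhood -/
  S' : Var
  /-- the etale morphism -/
  h : S' ⟶ L.S
  /-- the point -/
  s' : Pt S'
  hs : s'.map h = s
  etale : Etale h.left
  connected : IsIntegral S'.carrier
  /-- `R^(2p)` of the complement -/
  E : T.VM S'
  /-- the restriction -/
  ρ : (T.pull h).obj L.R ⟶ E
  /-- the fibre at `s'` -/
  e : (T.fib s').obj E ≅ T.Hn (2 * p) ((L.fibre s).openSub U)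
  compat : (T.fib s').map ρ ≫ e.hom =
    (T.pullFib h s' s hs).hom.app L.R ≫ (L.spec s).hom ≫ T.res (2 * p) ((L.fibre s).incl U)
  ker : Built (fun A => Nonempty (A ≅ T.tate S' (-(p : ℤ)))) (kernel ρ)
  coker : Built (Piece T p S') (cokernel ρ)

/-- The point `s` is very general: for every open subset `U` of the fibre `X_s` whose complement `Z` has
codimension at least `p`, the pair `(X_s, Z)` extends well to an etale neighbourhood of `s`. -/
def Lefschetz.VeryGeneral {p : ℕ} (L : T.Lefschetz p) (s : Pt L.S) : Prop :=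
  ∀ U : (L.fibre s).carrier.Opens, CodimGE (L.fibre s) U p → Nonempty (L.Spread s U)

/-- No nonzero real class of type `(p, p)` of the fibre of `B` has support in codimension `p`, in
`H^(2p+1)_D(X_s, ℝ(p+1))`. -/
def Lefschetz.NoSupport {p : ℕ} (L : T.Lefschetz p) (s : Pt L.S) : Prop :=
  ∀ x : (L.Bs s).C, (L.Bs s).RealType p x →
    ¬ T.Supported (L.fibre s) p (T.κ (2 * p) (p + 1) (L.fibre s) (MHS.cx (L.toFibre s) x))

end Theory

end Pool.Agent.Helper16.DBC
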