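import Mathlib

/-!
# Rational mixed Hodge structures (Deligne)

`MHS`: a finite dimensional rational vector space `V` with an increasing weight filtration `W` of `V` and a
decreasing Hodge filtration `F` of `ℂ ⊗ V`, such that for every `k` the filtration which `F` induces on
`Gr^W_k` and its complex conjugate are `k`-opposed. Morphisms are the rational linear maps which respect
both filtrations.
-/

set_option autoImplicit false

open CategoryTheory
open scoped TensorProduct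

namespace Pool.Agent.Helper16.DBC

section Conj

/-- `ℂ ⊗ V` for a rational vector space `V`. -/
def Cx (V : Type) [AddCommGroup V] [Module ℚ V] : Type := ℂ ⊗[ℚ] V

variable (V : Type) [AddCommGroup V] [Module ℚ V]

noncomputable instance : AddCommGroup (Cx V) := inferInstanceAs (AddCommGroup (ℂ ⊗[ℚ] V))

noncomputable instance : Module ℂ (Cx V) := inferInstanceAs (Module ℂ (ℂ ⊗[ℚ] V))

noncomputable instance : Module ℝ (Cx V) := inferInstanceAs (Module ℝ (ℂ ⊗[ℚ] V))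

/-- Complex conjugation of `ℂ ⊗ V`: `z ⊗ v` goes to `z̄ ⊗ v`. -/
noncomputable def conj : Cx V →+ Cx V :=
  (LinearMap.rTensor V (Complex.conjAe.toLinearMap.restrictScalars ℚ)).toAddMonoidHom

variable {V}

/-- `ℂ ⊗ f`. -/
noncomputable def cxMap {V' : Type} [AddCommGroup V'] [Module ℚ V'] (f : V →ₗ[ℚ] V') :
    Cx V →ₗ[ℂ] Cx V' := f.baseChange ℂ

/-- `ℂ ⊗ W ⊆ ℂ ⊗ V` for a subspace `W` of `V`. -/
noncomputable def cxSub (W : Submodule ℚ V) : Submodule ℂ (Cx V) := W.baseChange ℂ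

theorem conj_tmul (z : ℂ) (v : V) :
    conj V ((z ⊗ₜ[ℚ] v : ℂ ⊗[ℚ] V) : Cx V) = ((starRingEnd ℂ z ⊗ₜ[ℚ] v : ℂ ⊗[ℚ] V) : Cx V) := rfl

theorem cx_induction {P : Cx V → Prop} (h0 : P 0)
    (ht : ∀ (z : ℂ) (v : V), P ((z ⊗ₜ[ℚ] v : ℂ ⊗[ℚ] V) : Cx V))
    (ha : ∀ x y, P x → P y → P (x + y)) (x : Cx V) : P x :=
  TensorProduct.induction_on (motive := P) x h0 ht ha

theorem conj_smul (z : ℂ) (x : Cx V) : conj V (z • x) = (starRingEnd ℂ z) • conj V x := by
  induction x using cx_induction with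
  | h0 => simp
  | ht w v =>
    change conj V (((z • w) ⊗ₜ[ℚ] v : ℂ ⊗[ℚ] V) : Cx V) = _
    rw [conj_tmul, conj_tmul, smul_eq_mul, map_mul]
    rfl
  | ha x y hx hy => rw [smul_add, map_add, hx, hy, map_add, smul_add]

theorem conj_conj (x : Cx V) : conj V (conj V x) = x := by
  induction x using cx_induction with
  | h0 => simp
  | ht w v => rw [conj_tmul, conj_tmul, Complex.conj_conj]
  | ha x y hx hy => rw [map_add, map_add, hx, hy]

theorem conj_cxMap {V' : Type} [AddCommGroup V'] [Module ℚ V'] (f : V →ₗ[ℚ] V') (x : Cx V) :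
    conj V' (cxMap f x) = cxMap f (conj V x) := by
  induction x using cx_induction with
  | h0 => simp
  | ht w v => rfl
  | ha x y hx hy => simp only [map_add, hx, hy]

theorem cxMap_id (x : Cx V) : cxMap (LinearMap.id : V →ₗ[ℚ] V) x = x := by
  rw [cxMap, LinearMap.baseChange_id]; rfl

theorem cxMap_comp {V' V'' : Type} [AddCommGroup V'] [Module ℚ V'] [AddCommGroup V''] [Module ℚ V'']
    (f : V →ₗ[ℚ] V') (g : V' →ₗ[ℚ] V'') (x : Cx V) : cxMap (g ∘ₗ f) x = cxMap g (cxMap f x) := by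
  rw [cxMap, LinearMap.baseChange_comp]; rfl

theorem cxSub_bot : cxSub (⊥ : Submodule ℚ V) = ⊥ := Submodule.baseChange_bot _

theorem cxSub_top : cxSub (⊤ : Submodule ℚ V) = ⊤ := Submodule.baseChange_top _

/-- The complex conjugate of a complex subspace of `ℂ ⊗ V`. -/
def conjSub (F : Submodule ℂ (Cx V)) : Submodule ℂ (Cx V) where
  carrier := {x | conj V x ∈ F}
  add_mem' := fun {a b} ha hb => by
    change conj V (a + b) ∈ F
    rw [map_add]
    exact F.add_mem ha hb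
  zero_mem' := by
    change conj V 0 ∈ F
    rw [map_zero]
    exact F.zero_mem
  smul_mem' := fun z x hx => by
    change conj V (z • x) ∈ F
    rw [conj_smul]
    exact F.smul_mem _ hx

theorem mem_conjSub {F : Submodule ℂ (Cx V)} {x : Cx V} : x ∈ conjSub F ↔ conj V x ∈ F := Iff.rfl

end Conj

/-- The images of `A ∩ hi` and `B ∩ hi` in `hi / lo` are complementary. -/
def ComplementaryMod {M : Type} [AddCommGroup M] [Module ℂ M] (A B lo hi : Submodule ℂ M) : Prop :=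
  (A ⊓ hi ⊔ lo) ⊓ (B ⊓ hi ⊔ lo) = lo ∧ (A ⊓ hi ⊔ lo) ⊔ (B ⊓ hi ⊔ lo) = hi

/-- A rational mixed Hodge structure. -/
structure MHS : Type 1 where
  /-- the rational vector space -/
  V : Type
  [grp : AddCommGroup V]
  [mod : Module ℚ V]
  [fin : Module.Finite ℚ V]
  /-- the weight filtration -/
  W : ℤ → Submodule ℚ V
  /-- the Hodge filtration -/
  F : ℤ → Submodule ℂ (Cx V)
  W_mono : Monotone W
  W_bot : ∃ k, W k = ⊥
  W_top : ∃ k, W k = ⊤
  F_anti : Antitone F
  F_top : ∃ p, F p = ⊤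
  F_bot : ∃ p, F p = ⊥
  /-- `F` and its conjugate are `k`-opposed on `Gr^W_k`. -/
  opposed : ∀ k p q : ℤ, p + q = k + 1 →
    ComplementaryMod (F p) (conjSub (F q)) (cxSub (W (k - 1))) (cxSub (W k))

attribute [instance] MHS.grp MHS.mod MHS.fin

namespace MHS

/-- `ℂ ⊗ V`. -/
def C (H : MHS) : Type := Cx H.V

noncomputable instance (H : MHS) : AddCommGroup H.C := inferInstanceAs (AddCommGroup (Cx H.V))

noncomputable instance (H : MHS) : Module ℂ H.C := inferInstanceAs (Module ℂ (Cx H.V))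

noncomputable instance (H : MHS) : Module ℝ H.C := inferInstanceAs (Module ℝ (Cx H.V))

/-- Complex conjugation. -/
noncomputable def bar (H : MHS) : H.C →+ H.C := conj H.V

/-- The Hodge filtration as subspaces of `H.C`. -/
def Fil (H : MHS) (p : ℤ) : Submodule ℂ H.C := H.F p

/-- A morphism of mixed Hodge structures. -/
@[ext] structure Hom (H K : MHS) where
  /-- the rational linear map -/
  f : H.V →ₗ[ℚ] K.V
  map_W : ∀ (k : ℤ) (x : H.V), x ∈ H.W k → f x ∈ K.W k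
  map_F : ∀ (p : ℤ) (x : Cx H.V), x ∈ H.F p → cxMap f x ∈ K.F p

instance : Category MHS where
  Hom := Hom
  id H := ⟨LinearMap.id, fun _ _ h => h, fun _ _ h => by rwa [cxMap_id]⟩
  comp a b := ⟨b.f ∘ₗ a.f, fun k x h => b.map_W k _ (a.map_W k x h), fun p x h => by
    rw [cxMap_comp]
    exact b.map_F p _ (a.map_F p x h)⟩

theorem id_f (H : MHS) : Hom.f (𝟙 H) = LinearMap.id := rfl

theorem comp_f {H K L : MHS} (a : H ⟶ K) (b : K ⟶ L) : Hom.f (a ≫ b) = Hom.f b ∘ₗ Hom.f a := rfl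

/-- The complexification `ℂ ⊗ V → ℂ ⊗ V'` of a morphism. -/
noncomputable def cx {H K : MHS} (a : H ⟶ K) : H.C →ₗ[ℂ] K.C := cxMap (Hom.f a)

theorem cx_id (H : MHS) (x : H.C) : cx (𝟙 H) x = x := cxMap_id x

theorem cx_comp {H K L : MHS} (a : H ⟶ K) (b : K ⟶ L) (x : H.C) : cx (a ≫ b) x = cx b (cx a x) :=
  cxMap_comp _ _ _

theorem cx_Fil {H K : MHS} (a : H ⟶ K) {p : ℤ} {x : H.C} (hx : x ∈ H.Fil p) : cx a x ∈ K.Fil p :=
  a.map_F p x hx

theorem bar_cx {H K : MHS} (a : H ⟶ K) (x : H.C) : K.bar (cx a x) = cx a (H.bar x) :=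
  conj_cxMap _ _

theorem bar_bar {H : MHS} (x : H.C) : H.bar (H.bar x) = x := conj_conj x

theorem bar_smul {H : MHS} (z : ℂ) (x : H.C) : H.bar (z • x) = (starRingEnd ℂ z) • H.bar x :=
  conj_smul z x

/-- The sign `(-1)^j`. -/
def sign (j : ℤ) : ℤ := (j.negOnePow : ℤˣ)

theorem sign_mul_self (j : ℤ) : sign j * sign j = 1 := by
  rw [sign, ← Units.val_mul, Int.units_mul_self, Units.val_one]

theorem sign_succ (j : ℤ) : sign (j + 1) = -sign j := by
  rw [sign, sign, Int.negOnePow_succ, Units.val_neg]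

/-- `x` is in `V ⊗ ℝ(j) = (2 π i)^j (V ⊗ ℝ) ⊆ V ⊗ ℂ`: the conjugate of `x` is `(-1)^j x`. -/
def IsReal {H : MHS} (j : ℤ) (x : H.C) : Prop := H.bar x = sign j • x

/-- `H` is pure of weight `k`. -/
def Pure (H : MHS) (k : ℤ) : Prop := H.W (k - 1) = ⊥ ∧ H.W k = ⊤

/-- `x ∈ F^j + V ⊗ ℝ(j)`. -/
def InSum (H : MHS) (j : ℤ) (x : H.C) : Prop := ∃ a ∈ H.Fil j, ∃ r, IsReal j r ∧ x = a + r

/-- `V ⊗ ℂ` has a nonzero element of type `(p, p)`. -/
def HasType (H : MHS) (p : ℤ) : Prop := ∃ x : H.C, x ≠ 0 ∧ x ∈ H.Fil p ∧ H.bar x ∈ H.Fil p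

/-- `x` is nonzero and real of type `(p, p)`: `x ∈ F^p`, the conjugate of `x` is `(-1)^p x`. -/
structure RealType (H : MHS) (p : ℤ) (x : H.C) : Prop where
  ne_zero : x ≠ 0
  real : IsReal p x
  hodge : x ∈ H.Fil p

theorem IsReal.map {H K : MHS} (a : H ⟶ K) {j : ℤ} {x : H.C} (hx : IsReal j x) : IsReal j (cx a x) := by
  rw [IsReal] at *
  rw [bar_cx, hx, map_zsmul]

/-- In a pure Hodge structure of weight `2p` a real class of type `(p, p)` is not in `F^(p+1) + V ⊗ ℝ(p+1)`. -/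
theorem eq_zero_of_pure {K : MHS} {p : ℕ} (hK : K.Pure (2 * p : ℕ)) {x a r : K.C}
    (hx : IsReal p x) (hxF : x ∈ K.Fil p) (ha : a ∈ K.Fil ((p : ℤ) + 1)) (hr : IsReal ((p : ℤ) + 1) r)
    (hxa : x = a + r) : x = 0 := by
  have hopp := (K.opposed (2 * p : ℕ) p (p + 1) (by push_cast; ring)).1
  rw [hK.1, hK.2, cxSub_bot, cxSub_top, sup_bot_eq, sup_bot_eq, inf_top_eq, inf_top_eq] at hopp
  have hr' : K.bar r = -(sign p) • r := by
    rw [IsReal, sign_succ] at hr
    exact hr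
  have hx' : K.bar x = sign p • x := hx
  have h1 : K.bar a = sign p • (x + x - a) := by
    have h2 : K.bar a = K.bar x - K.bar r := by rw [hxa, map_add]; abel
    rw [h2, hx', hr', hxa]
    module
  have haF : a ∈ K.Fil p := K.F_anti (by omega) ha
  have h3 : K.bar a ∈ K.Fil p := by
    rw [h1]
    exact (K.Fil p).toAddSubgroup.zsmul_mem
      ((K.Fil p).sub_mem ((K.Fil p).add_mem hxF hxF) haF) _
  have h4 : K.bar a ∈ K.F p ⊓ conjSub (K.F ((p : ℤ) + 1)) := by
    refine ⟨h3, ?_⟩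
    rw [SetLike.mem_coe, mem_conjSub]
    change K.bar (K.bar a) ∈ K.Fil _
    rw [bar_bar]
    exact ha
  rw [hopp] at h4
  have h4' : K.bar a = 0 := (Submodule.mem_bot ℂ).1 h4
  have h5 : a = 0 := by rw [← bar_bar a, h4', map_zero]
  have h6 : sign p • (x + x - a) = 0 := by rw [← h1, h4']
  rw [h5, sub_zero] at h6
  have h7 : sign p • (sign p • (x + x)) = 0 := by rw [h6, smul_zero]
  rw [smul_smul, sign_mul_self, one_smul, ← two_smul ℂ x] at h7
  exact (smul_eq_zero.1 h7).resolve_left two_ne_zero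

end MHS

end Pool.Agent.Helper16.DBC
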