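import Pool.Agent.Helper16.DBC.Facts

/-!
# No support in codimension `p`
-/

set_option autoImplicit false

open CategoryTheory CategoryTheory.Limits AlgebraicGeometry Opposite
open scoped TensorProduct

namespace Pool.Agent.Helper16.DBC

section Abstract

variable {C : Type 1} [Category.{0} C] [Abelian C]

open Theory

theorem ExtZero.of_iso {A A' B : C} (e : A ≅ A') (h : ExtZero A' B) : ExtZero A B := by
  intro M N k q w hS φ
  refine h M N k (q ≫ e.hom) (by rw [← Category.assoc, w, zero_comp]) ?_ φ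
  refine ShortComplex.shortExact_of_iso ?_ hS
  exact ShortComplex.isoMk (Iso.refl _) (Iso.refl _) e (by simp) (by simp)

theorem ExtZero.of_isZero {A B : C} (h : IsZero A) : ExtZero A B := by
  intro M N k q w hS φ
  haveI : Mono k := hS.mono_f
  have hE : Epi k := by
    have := (ShortComplex.exact_iff_epi (ShortComplex.mk k q w) (h.eq_of_tgt _ _)).1 hS.exact
    exact this
  haveI : IsIso k := isIso_of_mono_of_epi k
  exact ⟨inv k ≫ φ, by simp⟩

theorem ExtZero.ext {A' A A'' B : C} {f : A' ⟶ A} {g : A ⟶ A''} {w₀ : f ≫ g = 0}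
    (hS : (ShortComplex.mk f g w₀).ShortExact) (h' : ExtZero A' B) (h'' : ExtZero A'' B) :
    ExtZero A B := by
  intro M N k q w hK φ
  haveI : Mono f := hS.mono_f
  haveI : Epi g := hS.epi_g
  haveI : Mono k := hK.mono_f
  haveI : Epi q := hK.epi_g
  -- N' = ker (N → A'')
  let ι' : kernel (q ≫ g) ⟶ N := kernel.ι (q ≫ g)
  have hk : k ≫ (q ≫ g) = 0 := by rw [← Category.assoc, w, zero_comp]
  let k' : M ⟶ kernel (q ≫ g) := kernel.lift _ k hk
  have hk' : k' ≫ ι' = k := kernel.lift_ι _ _ _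
  haveI : Mono k' := by
    haveI : Mono (k' ≫ ι') := by rw [hk']; infer_instance
    exact mono_of_mono k' ι'
  have hq : (ι' ≫ q) ≫ g = 0 := by rw [Category.assoc]; exact kernel.condition _
  let q' : kernel (q ≫ g) ⟶ A' := hS.exact.lift (ι' ≫ q) hq
  have hq' : q' ≫ f = ι' ≫ q := hS.exact.lift_f _ _
  have w' : k' ≫ q' = 0 := by
    rw [← cancel_mono f, Category.assoc, hq', ← Category.assoc, hk', w, zero_comp]
  haveI : Epi q' := by
    rw [epi_iff_surjective_up_to_refinements]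
    intro W a
    obtain ⟨W', π, hπ, x, hx⟩ := surjective_up_to_refinements_of_epi q (a ≫ f)
    have hx0 : x ≫ (q ≫ g) = 0 := by
      rw [← Category.assoc, ← hx, Category.assoc, Category.assoc, w₀, comp_zero, comp_zero]
    refine ⟨W', π, hπ, kernel.lift _ x hx0, ?_⟩
    rw [← cancel_mono f, Category.assoc, Category.assoc, hq', hx, ← Category.assoc,
      kernel.lift_ι]
  have hS' : (ShortComplex.mk k' q' w').ShortExact := by
    refine ShortComplex.ShortExact.mk' ?_ ‹_› ‹_›
    rw [ShortComplex.exact_iff_exact_up_to_refinements]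
    intro W a ha
    have h1 : (a ≫ ι') ≫ q = 0 := by
      rw [Category.assoc, ← hq', ← Category.assoc]
      have : a ≫ q' = 0 := ha
      rw [this, zero_comp]
    refine ⟨W, 𝟙 W, inferInstance, hK.exact.lift (a ≫ ι') h1, ?_⟩
    have h2 : hK.exact.lift (a ≫ ι') h1 ≫ k = a ≫ ι' := hK.exact.lift_f _ _
    change 𝟙 W ≫ a = hK.exact.lift (a ≫ ι') h1 ≫ k'
    haveI : Mono ι' := inferInstanceAs (Mono (kernel.ι (q ≫ g)))
    rw [← cancel_mono ι', Category.id_comp, Category.assoc, hk', h2]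
  obtain ⟨ψ', hψ'⟩ := h' M _ k' q' w' hS' φ
  have w'' : ι' ≫ (q ≫ g) = 0 := kernel.condition _
  have hS'' : (ShortComplex.mk ι' (q ≫ g) w'').ShortExact := by
    refine ShortComplex.ShortExact.mk' ?_ (inferInstanceAs (Mono (kernel.ι (q ≫ g)))) ?_
    · exact ShortComplex.exact_of_f_is_kernel _ (kernelIsKernel (q ≫ g))
    · change Epi (q ≫ g)
      infer_instance
  obtain ⟨ψ, hψ⟩ := h'' _ N ι' (q ≫ g) w'' hS'' ψ'
  exact ⟨ψ, by rw [← hk', Category.assoc, hψ, hψ']⟩

theorem ExtZero.of_built {P : C → Prop} {A B : C} (hA : Built P A) (h : ∀ A', P A' → ExtZero A' B) :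
    ExtZero A B := by
  induction hA with
  | zero A hz => exact ExtZero.of_isZero hz
  | of A hP => exact h A hP
  | ext S hS h₁ h₃ ih₁ ih₃ => exact ExtZero.ext (w₀ := S.zero) hS ih₁ ih₃

theorem hom_zero_of_built {P : C → Prop} {A B : C} (hA : Built P A)
    (h : ∀ A', P A' → ∀ f : A' ⟶ B, f = 0) : ∀ f : A ⟶ B, f = 0 := by
  induction hA with
  | zero A hz => exact fun f => hz.eq_of_src _ _
  | of A hP => exact h A hP
  | ext S hS h₁ h₃ ih₁ ih₃ =>
    intro f
    haveI := hS.epi_g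
    have h0 : S.f ≫ f = 0 := ih₁ _
    rw [← hS.exact.g_desc f h0, ih₃ (hS.exact.desc f h0), comp_zero]

/-- If the kernel of `ρ` has no morphism to `B` and `Ext¹(coker ρ, B) = 0`, every morphism `R ⟶ B` factors
through `ρ : R ⟶ E`. -/
theorem exists_factor {R E B : C} (ρ : R ⟶ E) (π : R ⟶ B) (hker : ∀ f : kernel ρ ⟶ B, f = 0)
    (hcok : ExtZero (cokernel ρ) B) : ∃ ψ : E ⟶ B, ρ ≫ ψ = π := by
  have hk : kernel.ι (Abelian.factorThruImage ρ) ≫ π = 0 := by
    have h0 : kernel.ι (Abelian.factorThruImage ρ) ≫ ρ = 0 := by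
      have h1 : kernel.ι (Abelian.factorThruImage ρ) ≫
          (Abelian.factorThruImage ρ ≫ Abelian.image.ι ρ) = 0 := by
        rw [← Category.assoc, kernel.condition, zero_comp]
      rwa [Abelian.image.fac] at h1
    rw [← kernel.lift_ι ρ _ h0, Category.assoc, hker (kernel.ι ρ ≫ π), comp_zero]
  let σ : Abelian.image ρ ⟶ B := Abelian.epiDesc (Abelian.factorThruImage ρ) π hk
  have hσ : Abelian.factorThruImage ρ ≫ σ = π := Abelian.comp_epiDesc _ _ _
  have w : kernel.ι (cokernel.π ρ) ≫ cokernel.π ρ = 0 := kernel.condition _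
  have hS : (ShortComplex.mk (kernel.ι (cokernel.π ρ)) (cokernel.π ρ) w).ShortExact := by
    refine ShortComplex.ShortExact.mk' ?_ inferInstance inferInstance
    exact ShortComplex.exact_of_f_is_kernel _ (kernelIsKernel (cokernel.π ρ))
  obtain ⟨ψ, hψ⟩ := hcok _ _ _ _ w hS σ
  refine ⟨ψ, ?_⟩
  have h2 : (Abelian.factorThruImage ρ ≫ Abelian.image.ι ρ) ≫ ψ = π := by
    rw [Category.assoc]
    erw [hψ]
    exact hσ
  rwa [Abelian.image.fac] at h2

end Abstract

namespace Theory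

open MHS

variable {T : Theory}

theorem pure_fibre (hB : T.Basic) {p : ℕ} (L : T.Lefschetz p) (s : Pt L.S) :
    (L.Bs s).Pure (2 * p : ℕ) := by
  have := L.hf.proper
  have hprop : IsProper (L.fibre s).str := by
    change IsProper (pullback.snd L.f.left s.s)
    infer_instance
  obtain ⟨h1, h2⟩ := hB.pure (L.fibre s) (2 * p) hprop
  let j := L.toFibre s
  let j' : T.Hn (2 * p) (L.fibre s) ⟶ L.Bs s := (L.spec s).inv ≫ (T.fib s).map L.π
  have hj : j ≫ j' = 𝟙 _ := by
    have h3 : (T.fib s).map L.ι ≫ (T.fib s).map L.π = 𝟙 ((T.fib s).obj L.B) := by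
      rw [← Functor.map_comp, L.ιπ, CategoryTheory.Functor.map_id]
    have h4 : j ≫ j' = (T.fib s).map L.ι ≫ ((L.spec s).hom ≫ (L.spec s).inv) ≫
        (T.fib s).map L.π := by
      simp only [j, j', Lefschetz.toFibre, Category.assoc]
    rw [h4, Iso.hom_inv_id]
    erw [Category.id_comp]
    exact h3
  have hjx : ∀ x, Hom.f j' (Hom.f j x) = x := by
    intro x
    have := congrArg (fun a => Hom.f a x) hj
    simpa [comp_f, id_f] using this
  refine ⟨?_, ?_⟩
  · rw [Submodule.eq_bot_iff]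
    intro x hx
    have h3 := j.map_W _ x hx
    rw [h1, Submodule.mem_bot] at h3
    rw [← hjx x, h3, map_zero]
  · rw [eq_top_iff]
    intro x _
    rw [← hjx x]
    apply j'.map_W
    rw [h2]
    trivial

/-- The retraction. -/
theorem exists_retraction (hV : T.Variations) {p : ℕ} (hp : 2 ≤ p) (L : T.Lefschetz p) (hN : L.Nori)
    (s : Pt L.S) (hs : L.VeryGeneral s) (U : (L.fibre s).carrier.Opens)
    (hU : CodimGE (L.fibre s) U p) :
    ∃ r : T.Hn (2 * p) ((L.fibre s).openSub U) ⟶ L.Bs s,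
      L.toFibre s ≫ T.res (2 * p) ((L.fibre s).incl U) ≫ r = 𝟙 _ := by
  obtain ⟨S', h, s', hs', het, hint, E, ρ, e, hcomp, hker, hcok⟩ := (hs U hU).some
  have hsm : Smooth h.left := inferInstance
  -- vanishing
  have hB : ∀ m ≤ 1, IsZero ((T.coh S' m).obj ((T.pull h).obj L.B)) := fun m hm =>
    hN S' h hsm hint m (by omega)
  have hZ : ∀ (Z : Var) (g : Z ⟶ S') (_ : Family g), ∀ m ≤ 2,
      IsZero ((T.coh Z m).obj ((T.pull g).obj ((T.pull h).obj L.B))) := by
    intro Z g hg m hm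
    have := hg.smooth
    have := hg.proper
    have := hg.fibres
    have hint' : IsIntegral Z.carrier :=
      GeometricallyIntegral.isIntegral_of_isLocallyNoetherian g.left
    have h1 : Smooth (g ≫ h).left := by
      rw [Var.comp_left]; infer_instance
    have h2 := hN Z (g ≫ h) h1 hint' m (by omega)
    exact h2.of_iso (((T.coh Z m).mapIso ((T.pullComp g h).app L.B)).symm)
  -- no morphism from the kernel
  have hK : ∀ f : kernel ρ ⟶ (T.pull h).obj L.B, f = 0 := by
    refine hom_zero_of_built hker ?_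
    rintro A ⟨i⟩ f
    have h0 : i.inv ≫ f = 0 :=
      hV.hom_zero S' hint _ _ (hV.tate_hom S' _ _ 0 (hB 0 (by omega))) _
    rw [← Iso.hom_inv_id_assoc i f, h0, comp_zero]
  have hC : ExtZero (cokernel ρ) ((T.pull h).obj L.B) := by
    refine ExtZero.of_built hcok ?_
    rintro A (⟨⟨i⟩⟩ | ⟨Z, g, hg, ⟨i⟩⟩)
    · exact ExtZero.of_iso i (hV.ext_zero S' hint _ _ (hV.tate_hom S' _ _ 0 (hB 0 (by omega)))
        (hV.tate_hom S' _ _ 1 (hB 1 le_rfl)))
    · exact ExtZero.of_iso i (hV.ext_zero S' hint _ _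
        (hV.leray Z S' g hg hint _ _ 0 (hZ Z g hg 1 (by omega)))
        (hV.leray Z S' g hg hint _ _ 1 (hZ Z g hg 2 le_rfl)))
  obtain ⟨ψ, hψ⟩ := exists_factor ρ ((T.pull h).map L.π) hK hC
  let P : ∀ A : T.VM L.S, (T.fib s').obj ((T.pull h).obj A) ⟶ (T.fib s).obj A :=
    fun A => (T.pullFib h s' s hs').hom.app A
  have hP : IsIso (P L.B) := inferInstanceAs (IsIso ((T.pullFib h s' s hs').hom.app L.B))
  have hnat : P L.B ≫ (T.fib s).map L.ι = (T.fib s').map ((T.pull h).map L.ι) ≫ P L.R :=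
    ((T.pullFib h s' s hs').hom.naturality L.ι).symm
  have hcomp' : P L.R ≫ (L.spec s).hom ≫ T.res (2 * p) ((L.fibre s).incl U) =
      (T.fib s').map ρ ≫ e.hom := hcomp.symm
  refine ⟨e.inv ≫ (T.fib s').map ψ ≫ P L.B, ?_⟩
  refine (cancel_epi (P L.B)).1 ?_
  calc P L.B ≫ L.toFibre s ≫ T.res (2 * p) ((L.fibre s).incl U) ≫
        e.inv ≫ (T.fib s').map ψ ≫ P L.B
      = (P L.B ≫ (T.fib s).map L.ι) ≫ ((L.spec s).hom ≫
          T.res (2 * p) ((L.fibre s).incl U)) ≫ e.inv ≫ (T.fib s').map ψ ≫ P L.B := by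
        rw [Lefschetz.toFibre]
        simp only [Category.assoc]
    _ = (T.fib s').map ((T.pull h).map L.ι) ≫ (P L.R ≫ (L.spec s).hom ≫
          T.res (2 * p) ((L.fibre s).incl U)) ≫ e.inv ≫ (T.fib s').map ψ ≫ P L.B := by
        rw [hnat]
        simp only [Category.assoc]
    _ = (T.fib s').map ((T.pull h).map L.ι) ≫ (T.fib s').map ρ ≫ (T.fib s').map ψ ≫ P L.B := by
        rw [hcomp']
        simp only [Category.assoc, Iso.hom_inv_id_assoc]
    _ = (T.fib s').map ((T.pull h).map L.ι ≫ ρ ≫ ψ) ≫ P L.B := by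
        simp only [Category.assoc, Functor.map_comp]
    _ = P L.B ≫ 𝟙 _ := by
        have h5 : (T.pull h).map L.ι ≫ ρ ≫ ψ = 𝟙 _ := by
          rw [hψ, ← Functor.map_comp, L.ιπ, CategoryTheory.Functor.map_id]
        rw [h5, CategoryTheory.Functor.map_id]
        erw [Category.id_comp]

/-- No nonzero primitive class has support in codimension `p`. -/
theorem not_supported (hB : T.Basic) (hV : T.Variations) {p : ℕ} (hp : 2 ≤ p) (L : T.Lefschetz p)
    (hN : L.Nori) (s : Pt L.S) (hs : L.VeryGeneral s) : L.NoSupport s := by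
  rintro x hx ⟨U, hU, h0⟩
  obtain ⟨r, hr⟩ := exists_retraction hV hp L hN s hs U hU
  have h0' := h0
  rw [← hB.natural (2 * p) (p + 1), hB.exact] at h0'
  obtain ⟨a, ha, b, hb, hab⟩ := h0'
  have h1 : x = cx r a + cx r b := by
    rw [← map_add, ← hab, ← cx_comp, ← cx_comp, hr, cx_id]
  exact hx.ne_zero (MHS.eq_zero_of_pure (pure_fibre hB L s) hx.real hx.hodge (cx_Fil r ha)
    (IsReal.map r hb) h1)

end Theory

end Pool.Agent.Helper16.DBC
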